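import Pool.Agent.Q171.RC.Base

/-!
# Curves over nonlinear differential equations: every point

Let `n`, `D`, `q`, `e0`, `s`, `r`, `e` be given. Then there is ONE number `δ` with the following
property. Let `X` be any closed subset of the complex projective `n`-space given by forms of degree at
most `D`. Let `b = (b_1, ..., b_q)` be any solution, on any domain `Ω` of the plane, of any autonomous
system `b_j' = P_j(b)` with polynomials `P_j` of degree at most `e0` in each variable (so `Ω` and
`b_j` may be the functions of any nonlinear autonomous system). Let `f : Ω → X` be a curve, the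
homogeneous coordinates of which are given by `s` iterated linear differential equations with matrices
of size `r` and polynomials of degree at most `e` over the functions `b_j` (`BVec Ω s r e b f`). Then
the quotients of the coordinates of `f` are algebraic of degree at most `δ` over `b_1, ..., b_q`, or
for EVERY `z ∈ Ω` and EVERY lattice `L` there is a nonconstant morphism from the elliptic curve
`ℂ / L` to `X`, given by polynomials of degree at most `δ` at the Weierstrass function of `L`, with
`g(0) = f(z)`.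

In particular, if all morphisms from some elliptic curve `ℂ / L` to `X` are constant (for instance, if
all morphisms from abelian varieties to `X` are constant), then all these curves `f` are algebraic of
bounded degree over their bases `b`.
-/

set_option autoImplicit false

namespace Pool.Agent.Results.MP_b9fedf_ag.NonlinearBases

open MvPolynomial Filter Topology Pool.Agent.Q139.EB Pool.Agent.Q171.RC
open scoped LinearAlgebra.Projectivization PeriodPair

/-- The map `g` from the plane to projective space is holomorphic: near each point it is given by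
homogeneous coordinates which are holomorphic and have no common zero. -/
def Holomorphic {n : ℕ} (g : ℂ → ℙ ℂ (Fin (n + 1) → ℂ)) : Prop :=
  ∀ z, ∃ φ : ℂ → Fin (n + 1) → ℂ, AnalyticAt ℂ φ z ∧
    ∀ᶠ w in 𝓝 z, ∃ h : φ w ≠ 0, g w = Projectivization.mk ℂ (φ w) h

/-- `g` is a nonconstant morphism from the torus `ℂ / L` to the projective variety of `S`, given by
polynomials of degree at most `δ` at the Weierstrass function of `L`. -/
def IsMorphism {n : ℕ} (L : PeriodPair) (S : Set (MvPolynomial (Fin (n + 1)) ℂ)) (δ : ℕ)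
    (g : ℂ → ℙ ℂ (Fin (n + 1) → ℂ)) : Prop :=
  Holomorphic g ∧ (∀ l ∈ L.lattice, ∀ z, g (z + l) = g z) ∧
    (∀ z, ∀ F ∈ S, eval (g z).rep F = 0) ∧ (∃ z w, g z ≠ g w) ∧
    ∃ Q : Fin (n + 1) → Polynomial ℂ, (∀ j, (Q j).natDegree ≤ δ) ∧
      ∀ z, z ∉ L.lattice → ∃ h : (fun j => (Q j).eval (℘[L] z)) ≠ 0,
        g z = Projectivization.mk ℂ _ h

theorem result (n D q e0 s r e : ℕ) : ∃ δ : ℕ, ∀ S : Set (MvPolynomial (Fin (n + 1)) ℂ),
    (∀ F ∈ S, ∃ e, e ≤ D ∧ F.IsHomogeneous e) →
    ∀ Ω : Set ℂ, IsOpen Ω → IsPreconnected Ω → ∀ b : ℂ → Fin q → ℂ, Auto Ω e0 b →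
      ∀ f : ℂ → Fin (n + 1) → ℂ, BVec Ω s r e b f → (∀ z ∈ Ω, ∀ F ∈ S, eval (f z) F = 0) →
        (∀ u v, AlgOn Ω δ b (fun z => f z u) fun z => f z v) ∨
        ∀ z ∈ Ω, ∀ hz : f z ≠ 0, ∀ L : PeriodPair, ∃ g : ℂ → ℙ ℂ (Fin (n + 1) → ℂ),
          IsMorphism L S δ g ∧ g 0 = Projectivization.mk ℂ (f z) hz := by
  obtain ⟨δ, hδ⟩ := base_locus n D q e0 s r e
  refine ⟨δ, fun S hS Ω hΩ hΩc b hb f hf hfS => ?_⟩
  rcases hδ S hS Ω hΩ hΩc b hb f hf hfS with h1 | h1
  · right
    intro z hz hfz L
    obtain ⟨g, h1, h2, h3, h4, h5, h6⟩ := torus_through L (fun F hF => by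
      obtain ⟨e, -, he⟩ := hS F hF
      exact ⟨e, he⟩) hfz (h1 z hz hfz)
    exact ⟨g, ⟨h1, h3, fun z F hF => h2 z ⟨F, hF⟩, h4, h6⟩, h5⟩
  · left
    exact h1

end Pool.Agent.Results.MP_b9fedf_ag.NonlinearBases
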