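import Mathlib
import Pool.Agent.Q13.FE.GT

/-!
# Entire curves given by nonlinear functional equations

Let `X` and `Z` be complex projective algebraic sets, such that all subvarieties of `X` of positive
dimension which are not contained in `Z` are of general type. Let `f` be a nonconstant entire curve
in `X` which is not contained in `Z`. We suppose that `f` is given by nonlinear functional equations
with respect to an entire function `σ` (`FunctionalCurve`): `σ` is not constant and no iterate of
`σ` is the identity; there are meromorphic functions `u_1, …, u_n` on the plane such that the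
`u_i(σ(z))` are rational functions of `u_1(z), …, u_n(z)` with constant coefficients, and the curve
has homogeneous coordinates which are polynomials in `u_1, …, u_n`.

For instance, let `T` be a rational map of an affine algebraic variety `V` to itself and `u` an
entire curve in `V` with `u(λ z) = T(u(z))`, where `λ` is neither zero nor a root of unity (these
curves of Poincaré parametrize one-dimensional invariant manifolds through fixed points of `T`);
`f` can be the image of `u` under any rational map of `V` to `X`. Another example are solutions of
difference equations `F(u(z), …, u(z + m)) = 0` which can be solved for `u(z + m)`.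

The result: `σ` is a translation `σ(z) = z + b`, and a multiple `k b` is a period of `f`. So if `σ`
is not a translation, then all such curves in `X` are constant or contained in `Z`.
-/

set_option autoImplicit false

namespace Pool.Agent.Results.MP_b9fedf_ag.NonlinearFunctionalEquations

open Filter MvPolynomial
open scoped LinearAlgebra.Projectivization
open Pool.Agent.TH143.EL (HolMap InV Rep)
open Pool.Agent.Y189.DC (NCE)
open Pool.Agent.Q13.KO (SubGT)
open Pool.Agent.Q13.FE (NBase gt_main trans_of_inv)

variable {N : ℕ}

/-- The entire curve `f` is given by nonlinear functional equations with respect to `σ`: Here `σ` is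
a nonconstant entire function (`NCE σ`), no iterate `σ^k`, `k > 0`, of which is the identity. There
is a finite set `U` of meromorphic functions on the plane whose compositions with `σ` are rational
functions over `ℂ` of the functions in `U` (`NBase σ U`), and the curve has homogeneous coordinates
`h j` which are polynomials over `ℂ` in the functions in `U`. -/
def FunctionalCurve (σ : ℂ → ℂ) (f : ℂ → ℙ ℂ (Fin (N + 1) → ℂ)) : Prop :=
  NCE σ ∧ (∀ k, 0 < k → ∃ z, σ^[k] z ≠ z) ∧ ∃ U : Set (ℂ → ℂ), NBase σ U ∧
    ∃ h : Fin (N + 1) → ℂ → ℂ, (∀ j, h j ∈ Algebra.adjoin ℂ U) ∧
      ∀ᶠ z in codiscrete ℂ, Rep (f z) fun j => h j z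

/-- Let `X` and `Z` be the projective algebraic sets of the ideals `I` and `I'`; for `I' = ⊤` the
set `Z` is empty. All subvarieties of `X` of positive dimension which are not contained in `Z` are of
general type (`SubGT`). Then a nonconstant entire curve in `X`, not contained in `Z`, can be given by
nonlinear functional equations with respect to `σ` only if `σ` is a translation by a number `b`, a
multiple of which is a period of the curve. -/
theorem result (I I' : Ideal (MvPolynomial (Fin (N + 1)) ℂ)) (hX : SubGT (RingHom.id ℂ) I I')
    (f : ℂ → ℙ ℂ (Fin (N + 1) → ℂ)) (hf : HolMap f) (hI : ∀ z, InV I (f z))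
    (hZ : ∃ z, ¬ InV I' (f z)) (hnc : ∃ z w, f z ≠ f w) (σ : ℂ → ℂ) (hσ : FunctionalCurve σ f) :
    ∃ b : ℂ, b ≠ 0 ∧ (∀ z, σ z = z + b) ∧ ∃ k : ℕ, 0 < k ∧ ∀ z, f (z + k * b) = f z := by
  obtain ⟨hn, hinf, U, hU, h, hh, hr⟩ := hσ
  obtain ⟨k, hk, hinv⟩ := gt_main hX hn hU hf hI hZ hh hr
  exact trans_of_inv hn hinf hf hnc (fun j => Pool.Agent.Y189.DC.adj_mero hU.mero (hh j)) hr hk hinv

end Pool.Agent.Results.MP_b9fedf_ag.NonlinearFunctionalEquations
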