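import Pool.Agent.Q171.RC.Torus

/-!
# Elliptic curves through every point of the curves of bounded complexity

We consider curves `f : Ω → X` on arbitrary domains `Ω` of the plane (for instance entire curves,
`Ω = ℂ`) in projective varieties, with homogeneous coordinates given by `s` iterated linear
differential equations with matrices of size `r` and polynomials of degree at most `e`
(`DVec Ω s r e f`): there are invertible matrices `X_1(z), ..., X_s(z)` of size `r` of analytic
functions on `Ω` such that the entries of `X_l'(z) X_l(z)⁻¹` are values of polynomials with constant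
coefficients, of degree at most `e` in each variable, at the entries of `X_i(z)`, `X_i(z)⁻¹`, `i < l`,
and the coordinates of `f(z)` are values of such polynomials at the entries of all these matrices.
(Polynomials, exponential polynomials, `exp (exp z)`, Airy functions, and so on, are of this kind.)

For all `n`, `D`, `s`, `r`, `e` there is a number `δ` with the following property. Let `X` be any
projective variety given by forms of degree at most `D` in `n + 1` variables, let `f : Ω → X` be a
nonconstant curve of complexity `(s, r, e)`, and let `z ∈ Ω`. Then for EVERY lattice `L` in the plane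
there is a nonconstant morphism `g : ℂ / L → X` with `g(0) = f(z)`, given outside of the lattice by
polynomials of degree at most `δ` at the Weierstrass function of `L` (so `g` has degree at most `2 δ`).

So the images of these curves are covered by the images of the nonconstant morphisms of bounded
degree from any given abelian variety of dimension one; if all these morphisms are constant, so are
all these curves.
-/

set_option autoImplicit false

namespace Pool.Agent.Results.MP_b9fedf_ag.ToriThroughEveryPoint

open MvPolynomial Filter Topology Pool.Agent.Q1.SL Pool.Agent.Q171.RC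
open scoped LinearAlgebra.Projectivization PeriodPair

/-- The map `g` from the plane to projective space is holomorphic: near each point it is given by
homogeneous coordinates which are holomorphic and have no common zero. -/
def Holomorphic {n : ℕ} (g : ℂ → ℙ ℂ (Fin (n + 1) → ℂ)) : Prop :=
  ∀ z, ∃ φ : ℂ → Fin (n + 1) → ℂ, AnalyticAt ℂ φ z ∧
    ∀ᶠ w in 𝓝 z, ∃ h : φ w ≠ 0, g w = Projectivization.mk ℂ (φ w) h

/-- `g` is a nonconstant morphism from the torus `ℂ / L` to the projective variety of `S`, given by
polynomials of degree at most `δ` at the Weierstrass function of `L`. -/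
def IsMorphism {n : ℕ} (L : PeriodPair) (S : Set (MvPolynomial (Fin (n + 1)) ℂ)) (δ : ℕ)
    (g : ℂ → ℙ ℂ (Fin (n + 1) → ℂ)) : Prop :=
  Holomorphic g ∧ (∀ l ∈ L.lattice, ∀ z, g (z + l) = g z) ∧
    (∀ z, ∀ F ∈ S, eval (g z).rep F = 0) ∧ (∃ z w, g z ≠ g w) ∧
    ∃ Q : Fin (n + 1) → Polynomial ℂ, (∀ j, (Q j).natDegree ≤ δ) ∧
      ∀ z, z ∉ L.lattice → ∃ h : (fun j => (Q j).eval (℘[L] z)) ≠ 0,
        g z = Projectivization.mk ℂ _ h

theorem result (n D s r e : ℕ) : ∃ δ : ℕ, ∀ S : Set (MvPolynomial (Fin (n + 1)) ℂ),
    (∀ F ∈ S, ∃ e, e ≤ D ∧ F.IsHomogeneous e) →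
    ∀ Ω : Set ℂ, IsOpen Ω → IsPreconnected Ω → ∀ f : ℂ → Fin (n + 1) → ℂ, DVec Ω s r e f →
      (∀ z ∈ Ω, ∀ F ∈ S, eval (f z) F = 0) →
      (∃ z ∈ Ω, ∃ w ∈ Ω, ∃ i j, f z i * f w j ≠ f z j * f w i) →
      ∀ z ∈ Ω, ∀ hz : f z ≠ 0, ∀ L : PeriodPair, ∃ g : ℂ → ℙ ℂ (Fin (n + 1) → ℂ),
        IsMorphism L S δ g ∧ g 0 = Projectivization.mk ℂ (f z) hz := by
  obtain ⟨δ, hδ⟩ := ode_locus n D s r e
  refine ⟨δ, fun S hS Ω hΩ hΩc f hf hfS hnc z hz hfz L => ?_⟩
  obtain ⟨g, h1, h2, h3, h4, h5, h6⟩ := torus_through L (fun F hF => by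
    obtain ⟨e, -, he⟩ := hS F hF
    exact ⟨e, he⟩) hfz (hδ S hS Ω hΩ hΩc f hf hfS hnc z hz hfz)
  exact ⟨g, ⟨h1, h3, fun z F hF => h2 z ⟨F, hF⟩, h4, h6⟩, h5⟩

end Pool.Agent.Results.MP_b9fedf_ag.ToriThroughEveryPoint
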