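import Pool.Agent.Q139.EG.Hyp

set_option autoImplicit false

/-!
# Finitely many tori decide, for curves with arbitrary elliptic or small coefficients

For all `n`, `D`, `s`, `r`, `e` there is `N` such that for all lattices `L` in the plane, all closed
subvarieties `X` of the complex projective `n`-space given by forms of degree at most `D` and all
forms `G` of degree at most `D`: if all nonconstant holomorphic maps from the complex tori `ℂ / Λ` to
`X`, for the subgroups `Λ` of `L` of index at most `N`, have their image in `G = 0`, then so have all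
nonconstant entire curves `f : ℂ → X` which are given by `s` iterated linear differential equations
with matrices of size `r` and polynomials of degree at most `e` either with ARBITRARY elliptic
functions for `L` as coefficients (`PerCurve L s r e f`), or with SMALL coefficients: meromorphic
functions `a` on the plane such that `T(r, a^(k)) = o(T(r, f))` for all `k` (`SmallCurve s r e f`).
In particular, if all these maps `ℂ / Λ → X` are constant, all such entire curves are constant.
-/

namespace Pool.Agent.Results.MP_b9fedf_ag.UniformToriSmall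

open MvPolynomial Pool.Agent.Q139.EG Pool.Agent.TH143.EL
open Pool.Agent.Q139.EB (OnV TorusIn)
open scoped LinearAlgebra.Projectivization

theorem result (n D s r e : ℕ) : ∃ N : ℕ,
    (∀ (L : PeriodPair) (S : Set (MvPolynomial (Fin (n + 1)) ℂ))
      (G : MvPolynomial (Fin (n + 1)) ℂ),
      (∀ F ∈ S, ∃ e, e ≤ D ∧ F.IsHomogeneous e) → (∃ e, e ≤ D ∧ G.IsHomogeneous e) →
      (∀ Λ : AddSubgroup L.lattice, Λ.index ≠ 0 → Λ.index ≤ N → TorusIn L Λ S G) →
      ∀ f : ℂ → ℙ ℂ (Fin (n + 1) → ℂ), HolMap f → OnV S f →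
        (PerCurve L.lattice.toAddSubgroup s r e f ∨ SmallCurve s r e f) →
        (∃ z w, f z ≠ f w) → ∀ z, eval (f z).rep G = 0) ∧
    ∀ (L : PeriodPair) (S : Set (MvPolynomial (Fin (n + 1)) ℂ)),
      (∀ F ∈ S, ∃ e, e ≤ D ∧ F.IsHomogeneous e) →
      (∀ Λ : AddSubgroup L.lattice, Λ.index ≠ 0 → Λ.index ≤ N →
        ∀ g : ℂ → ℙ ℂ (Fin (n + 1) → ℂ), HolMap g → (∀ l ∈ Λ, ∀ z, g (z + (l : ℂ)) = g z) →
          OnV S g → ∀ z w, g z = g w) →
      ∀ f : ℂ → ℙ ℂ (Fin (n + 1) → ℂ), HolMap f → OnV S f →
        (PerCurve L.lattice.toAddSubgroup s r e f ∨ SmallCurve s r e f) →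
        ∀ z w, f z = f w := by
  obtain ⟨N, hN⟩ := tori_gen n D s r e
  refine ⟨N, hN, fun L S hS hT f hf hfS hE z w => ?_⟩
  by_contra hne
  have h1 := hN L S 1 hS ⟨0, Nat.zero_le _, isHomogeneous_one _ _⟩
    (fun Λ h1 h2 g hg hgL hgS hnc => by
      obtain ⟨a, b, hab⟩ := hnc
      exact absurd (hT Λ h1 h2 g hg hgL hgS a b) hab) f hf hfS hE ⟨z, w, hne⟩ z
  rw [map_one] at h1
  exact one_ne_zero h1

end Pool.Agent.Results.MP_b9fedf_ag.UniformToriSmall
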